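import Mathlib
import Pool.Agent.R821.Sparse

/-!
# The supremum of the topologies `τ_c` is compatible but not the Mackey topology for the 2-adic case

For `b n = 2 ^ n` the topology `s_b` has the character group `H_b` of the dyadic rationals, and there is a
locally quasi-convex group topology on `ℤ` with the same characters which is not coarser than `s_b`:
the topology of uniform convergence on the characters `1 / 2 ^ e`, `e ∈ A`, where `A` consists of
clusters of `j` equally spaced numbers at distance `j`, the clusters being far apart and each `j`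
occurring infinitely often.
-/

set_option autoImplicit false

open Filter Topology Pointwise

namespace Pool.Agent.Results.MP_2b4c46_gt.SupremumNotMackey

open Pool.Agent.R821

/-- D-sequences -/
def DSeq (b : ℕ → ℕ) : Prop := b 0 = 1 ∧ ∀ n, 0 < b n ∧ b n ∣ b (n + 1) ∧ b n ≠ b (n + 1)

/-- D-sequences with `b (n + 1) / b n → ∞` -/
def DInf (b : ℕ → ℕ) : Prop := DSeq b ∧ Tendsto (fun n => b (n + 1) / b n) atTop atTop

/-- The topology `λ_b`: the coarsest topology on `ℤ` for which all the reductions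
`ℤ → ℤ/(b n)` into discrete groups are continuous. If `b` is a D-sequence, then it is the group topology
with the neighbourhood base `b n ℤ` of zero, see `mem_nhds_lam`. -/
@[reducible] def lam (b : ℕ → ℕ) : TopologicalSpace ℤ :=
  ⨅ n, TopologicalSpace.induced (fun l : ℤ => (l : ZMod (b n))) ⊥

/-- The topology `τ_b` of uniform convergence on the characters `k ↦ k / b n`, `n ≥ 1`. -/
@[reducible] noncomputable def tau (b : ℕ → ℕ) : TopologicalSpace ℤ :=
  unifTop {x : T | ∃ n, 1 ≤ n ∧ x = ((1 / (b n : ℝ) : ℝ) : T)}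

/-- The topology `s_b`, the supremum (in Mathlib the infimum) of the topologies `τ_c`, where `c` is a
D-sequence with `c (n + 1) / c n → ∞` and `λ_c = λ_b`. -/
@[reducible] noncomputable def sup (b : ℕ → ℕ) : TopologicalSpace ℤ :=
  sInf {τ | ∃ c : ℕ → ℕ, DInf c ∧ lam c = lam b ∧ τ = tau c}

/-- the group `H_b` of the elements `k / b n` of the circle -/
def Hb (b : ℕ → ℕ) : Set T := {x | ∃ (k : ℤ) (n : ℕ), x = (((k : ℝ) / (b n : ℝ) : ℝ) : T)}

/-- The group of continuous characters of `ℤ` with the topology `τ`, where a character `χ` is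
identified with `χ 1`, is the set `H`. -/
def HasCharGroup (τ : TopologicalSpace ℤ) (H : Set T) : Prop :=
  ∀ χ : ℤ →+ T, @Continuous ℤ T τ _ χ ↔ χ 1 ∈ H

theorem DSeq.dvd {b : ℕ → ℕ} (hb : DSeq b) {n m : ℕ} (h : n ≤ m) : b n ∣ b m := by
  induction h with
  | refl => exact dvd_rfl
  | step _ ih => exact ih.trans (hb.2 _).2.1

theorem nhds_induced_bot {α : Type} (f : ℤ → α) :
    @nhds ℤ (TopologicalSpace.induced f ⊥) 0 = 𝓟 {l | f l = f 0} := by
  let _ : TopologicalSpace α := ⊥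
  have : DiscreteTopology α := ⟨rfl⟩
  rw [nhds_induced, nhds_discrete, ← Filter.principal_singleton, Filter.comap_principal]
  rfl

theorem mem_nhds_lam {b : ℕ → ℕ} (hb : DSeq b) {U : Set ℤ} :
    U ∈ @nhds ℤ (lam b) 0 ↔ ∃ n, {l : ℤ | ((b n : ℕ) : ℤ) ∣ l} ⊆ U := by
  have h1 : @nhds ℤ (lam b) 0 = ⨅ n, 𝓟 {l : ℤ | ((b n : ℕ) : ℤ) ∣ l} := by
    rw [lam, nhds_iInf]
    congr 1
    funext n
    rw [nhds_induced_bot]
    congr 1
    ext l
    change ((l : ℤ) : ZMod (b n)) = ((0 : ℤ) : ZMod (b n)) ↔ _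
    rw [Int.cast_zero]
    exact ZMod.intCast_zmod_eq_zero_iff_dvd l (b n)
  rw [h1, Filter.mem_iInf_of_directed]
  · simp only [Filter.mem_principal]
  · intro n m
    refine ⟨max n m, ?_, ?_⟩
    · exact Filter.principal_mono.2 fun l hl =>
        (Int.natCast_dvd_natCast.2 (hb.dvd (le_max_left n m))).trans hl
    · exact Filter.principal_mono.2 fun l hl =>
        (Int.natCast_dvd_natCast.2 (hb.dvd (le_max_right n m))).trans hl

/-- the D-sequence of the powers of two -/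
def two : ℕ → ℕ := fun n => 2 ^ n

theorem dseq_two : DSeq two := by
  refine ⟨rfl, fun n => ⟨by unfold two; positivity, ?_, ?_⟩⟩
  · exact pow_dvd_pow 2 (Nat.le_succ n)
  · unfold two
    intro h
    have := Nat.pow_right_injective (le_refl 2) h
    omega

theorem exists_exp {c : ℕ → ℕ} (hc : DSeq c) (hlam : lam c = lam two) (n : ℕ) :
    ∃ e, c n = 2 ^ e := by
  have h1 : {l : ℤ | ((c n : ℕ) : ℤ) ∣ l} ∈ @nhds ℤ (lam c) 0 :=
    (mem_nhds_lam hc).2 ⟨n, Set.Subset.refl _⟩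
  rw [hlam] at h1
  obtain ⟨N, hN⟩ := (mem_nhds_lam dseq_two).1 h1
  have h2 : ((c n : ℕ) : ℤ) ∣ ((two N : ℕ) : ℤ) := hN (dvd_refl _)
  have h3 : c n ∣ 2 ^ N := Int.natCast_dvd_natCast.1 h2
  obtain ⟨e, -, he⟩ := (Nat.dvd_prime_pow Nat.prime_two).1 h3
  exact ⟨e, he⟩

/-- the exponents of a D-sequence of powers of two form a nice set -/
theorem exists_nice {c : ℕ → ℕ} (hc : DInf c) (hlam : lam c = lam two) :
    ∃ A : Set ℕ, Nice A ∧ {x : T | ∃ n, 1 ≤ n ∧ x = ((1 / (c n : ℝ) : ℝ) : T)} ⊆ pw A := by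
  choose e he using exists_exp hc.1 hlam
  have hmono : StrictMono e := by
    refine strictMono_nat_of_lt_succ fun n => ?_
    obtain ⟨-, h1, h2⟩ := hc.1.2 n
    rw [he n, he (n + 1)] at h1 h2
    have h3 : e n ≤ e (n + 1) := (Nat.pow_dvd_pow_iff_le_right (by norm_num)).1 h1
    refine lt_of_le_of_ne h3 fun h => h2 ?_
    rw [h]
  refine ⟨Set.range e, ⟨1, fun L => ?_⟩, ?_⟩
  · obtain ⟨K, hK⟩ := (Filter.tendsto_atTop.1 hc.2 (2 ^ L)).exists_forall_of_atTop
    refine ⟨e K, fun n hn => ?_⟩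
    rw [Set.ncard_le_one ((Set.finite_Ico _ _).subset Set.inter_subset_right)]
    have hgap : ∀ k, K ≤ k → e k + L ≤ e (k + 1) := by
      intro k hk
      have h1 := hK k hk
      have h0 : e k ≤ e (k + 1) := hmono.monotone (Nat.le_succ k)
      rw [he k, he (k + 1), Nat.pow_div h0 (by norm_num)] at h1
      have h2 := (Nat.pow_le_pow_iff_right (by norm_num : 1 < 2)).1 h1
      have h3 : e k ≤ e (k + 1) := hmono.monotone (Nat.le_succ k)
      omega
    have key : ∀ i j, i < j → n ≤ e i → e j < n + L → False := by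
      intro i j hij h1 h2
      have hKi : K ≤ i := by
        by_contra hcon
        have h3 : e i < e K := hmono (not_le.1 hcon)
        omega
      have h3 := hgap i hKi
      have h4 : e (i + 1) ≤ e j := hmono.monotone hij
      omega
    rintro _ ⟨⟨i, rfl⟩, hi1, hi2⟩ _ ⟨⟨j, rfl⟩, hj1, hj2⟩
    rcases lt_trichotomy i j with h | h | h
    · exact (key i j h hi1 hj2).elim
    · rw [h]
    · exact (key j i h hj1 hi2).elim
  · rintro _ ⟨n, -, rfl⟩
    refine ⟨e n, ⟨n, rfl⟩, ?_⟩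
    change ((1 / 2 ^ e n : ℝ) : T) = _
    rw [he n]
    push_cast
    rfl

/-- neighbourhoods of zero in the topology `s_b` -/
theorem nhds_sup {U : Set ℤ} (hU : U ∈ @nhds ℤ (sup two) 0) :
    ∃ A : Set ℕ, Nice A ∧ ∃ m : ℕ, 1 ≤ m ∧ Vset (pw A) m ⊆ U := by
  let 𝒢 : Filter ℤ :=
    { sets := {U | ∃ A : Set ℕ, Nice A ∧ ∃ m : ℕ, 1 ≤ m ∧ Vset (pw A) m ⊆ U}
      univ_sets := ⟨∅, ⟨0, fun L => ⟨0, fun n _ => by simp⟩⟩, 1, le_rfl, Set.subset_univ _⟩
      sets_of_superset := by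
        rintro U V ⟨A, hA, m, hm, hU⟩ hUV
        exact ⟨A, hA, m, hm, hU.trans hUV⟩
      inter_sets := by
        rintro U V ⟨A, hA, m, hm, hU⟩ ⟨B, hB, k, hk, hV⟩
        refine ⟨A ∪ B, hA.union hB, max m k, hm.trans (le_max_left _ _), ?_⟩
        refine Set.subset_inter ?_ ?_
        · refine (Vset_mono ?_ hm (le_max_left _ _)).trans hU
          exact Set.image_mono Set.subset_union_left
        · refine (Vset_mono ?_ hk (le_max_right _ _)).trans hV
          exact Set.image_mono Set.subset_union_right }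
  have h1 : 𝒢 ≤ @nhds ℤ (sup two) 0 := by
    rw [sup, nhds_sInf]
    refine le_iInf₂ ?_
    rintro _ ⟨c, hc, hlam, rfl⟩
    intro V hV
    obtain ⟨m, hm, hVm⟩ := (unifTop_mem _).1 hV
    obtain ⟨A, hA, hAc⟩ := exists_nice hc hlam
    exact ⟨A, hA, m, hm, (Vset_mono hAc hm le_rfl).trans hVm⟩
  exact h1 hU

/-- the D-sequence `2 ^ (n ^ 2)` -/
def sq : ℕ → ℕ := fun n => 2 ^ (n ^ 2)

theorem dinf_sq : DInf sq := by
  have hle : ∀ n : ℕ, n ^ 2 ≤ (n + 1) ^ 2 := fun n => Nat.pow_le_pow_left (Nat.le_succ n) 2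
  refine ⟨⟨rfl, fun n => ⟨by unfold sq; positivity, pow_dvd_pow 2 (hle n), ?_⟩⟩, ?_⟩
  · unfold sq
    intro h
    have h1 : n ^ 2 = (n + 1) ^ 2 := Nat.pow_right_injective (le_refl 2) h
    have h2 : n ^ 2 < (n + 1) ^ 2 := Nat.pow_lt_pow_left (Nat.lt_succ_self n) (by norm_num)
    omega
  · have h1 : (fun n => sq (n + 1) / sq n) = fun n : ℕ => 2 ^ (2 * n + 1) := by
      funext n
      unfold sq
      rw [Nat.pow_div (hle n) (by norm_num)]
      congr 1
      have : (n + 1) ^ 2 = n ^ 2 + (2 * n + 1) := by ring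
      omega
    rw [h1]
    refine tendsto_atTop_mono (fun n => ?_) tendsto_id
    have h2 : 2 * n + 1 < 2 ^ (2 * n + 1) := Nat.lt_two_pow_self
    change n ≤ _
    omega

theorem lam_group (b : ℕ → ℕ) : @IsTopologicalAddGroup ℤ (lam b) _ := by
  refine topologicalAddGroup_iInf fun n => ?_
  let _ : TopologicalSpace (ZMod (b n)) := ⊥
  have : DiscreteTopology (ZMod (b n)) := ⟨rfl⟩
  exact topologicalAddGroup_induced (Int.castAddHom (ZMod (b n)))

theorem lam_sq : lam sq = lam two := by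
  refine le_antisymm ?_ ?_
  · refine le_of_zero _ _ (lam_group _) (lam_group _) ?_
    intro U hU
    obtain ⟨n, hn⟩ := (mem_nhds_lam dseq_two).1 hU
    refine (mem_nhds_lam dinf_sq.1).2 ⟨n, fun l hl => hn ?_⟩
    have h1 : two n ∣ sq n := pow_dvd_pow 2 (Nat.le_self_pow (by norm_num) n)
    exact (Int.natCast_dvd_natCast.2 h1).trans hl
  · refine le_of_zero _ _ (lam_group _) (lam_group _) ?_
    intro U hU
    obtain ⟨n, hn⟩ := (mem_nhds_lam dinf_sq.1).1 hU
    exact (mem_nhds_lam dseq_two).2 ⟨n ^ 2, fun l hl => hn hl⟩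

theorem chr_dyadic {τ : TopologicalSpace ℤ} {e : ℕ}
    (he : @Continuous ℤ T τ _ (chr ((1 / 2 ^ e : ℝ) : T))) {k : ℤ} {n : ℕ} (hn : n ≤ e) :
    @Continuous ℤ T τ _ (chr (((k : ℝ) / ((two n : ℕ) : ℝ) : ℝ) : T)) := by
  have h1 := chr_continuous_zsmul he (k * 2 ^ (e - n))
  have h2 : (k * 2 ^ (e - n) : ℤ) • ((1 / 2 ^ e : ℝ) : T) = (((k : ℝ) / ((two n : ℕ) : ℝ) : ℝ) : T) := by
    rw [← AddCircle.coe_zsmul, zsmul_eq_mul]
    congr 1
    obtain ⟨d, rfl⟩ := Nat.exists_eq_add_of_le hn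
    unfold two
    push_cast
    rw [Nat.add_sub_cancel_left, pow_add]
    field_simp
  rw [h2] at h1
  exact h1

theorem mem_Hb_of {x : T} {n : ℕ} (h : (2 ^ n : ℕ) • x = 0) : x ∈ Hb two := by
  obtain ⟨r, rfl, -, -⟩ := exists_real x
  rw [← AddCircle.coe_nsmul, AddCircle.coe_eq_zero_iff] at h
  obtain ⟨k, hk⟩ := h
  refine ⟨k, n, ?_⟩
  congr 1
  rw [nsmul_eq_mul] at hk
  unfold two
  push_cast at hk ⊢
  rw [eq_div_iff (by positivity)]
  simp at hk
  linarith

/-- The topology `s_b` for `b n = 2 ^ n` has the character group `H_b`. -/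
theorem charGroup_sup : HasCharGroup (sup two) (Hb two) := by
  intro χ
  constructor
  · intro hχ
    have h1 : {l : ℤ | ‖l • χ 1‖ ≤ 1 / 4} ∈ @nhds ℤ (sup two) 0 := by
      have h2 := @Continuous.tendsto ℤ T (sup two) _ _ hχ 0
      rw [map_zero] at h2
      have h3 : {y : T | ‖y‖ < 1 / 4} ∈ 𝓝 (0 : T) :=
        (isOpen_lt continuous_norm continuous_const).mem_nhds (by norm_num)
      refine mem_of_superset (h2 h3) fun l hl => ?_
      have h4 : ‖χ l‖ < 1 / 4 := hl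
      rw [eq_chr χ] at h4
      exact h4.le
    obtain ⟨A, hA, m, hm, hAm⟩ := nhds_sup h1
    obtain ⟨n, hn⟩ := dyadic_of_gappy hA.gappy hm (x := χ 1) fun l hl => hAm hl
    exact mem_Hb_of hn
  · rintro ⟨k, n, hk⟩
    rw [eq_chr χ, hk]
    have hle : sup two ≤ tau sq := sInf_le ⟨sq, dinf_sq, lam_sq, rfl⟩
    refine continuous_le_dom hle ?_
    have h1 : @Continuous ℤ T (tau sq) _ (chr ((1 / 2 ^ ((n + 1) ^ 2) : ℝ) : T)) := by
      refine chr_continuous_of_mem ⟨n + 1, by omega, ?_⟩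
      unfold sq
      push_cast
      rfl
    exact chr_dyadic h1 (by nlinarith)

/-- the cluster set: the numbers `n ^ 3 + j t`, `1 ≤ t ≤ j`, where `j` is the first component of the
pair encoded by `n` -/
def Cl : Set ℕ := {e | ∃ n t : ℕ, 1 ≤ t ∧ t ≤ (Nat.unpair n).1 ∧ e = n ^ 3 + (Nat.unpair n).1 * t}

theorem gappy_Cl : Gappy Cl := by
  intro r
  refine ⟨r + r ^ 2, 2 * (r + 2) ^ 3, fun N hN => ?_⟩
  by_cases h : ∃ e ∈ Cl, N < e ∧ e ≤ N + r
  swap
  · exact ⟨N, le_rfl, by omega, fun e he hcon => h ⟨e, he, hcon.1, hcon.2⟩⟩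
  obtain ⟨e, ⟨n, t, ht1, ht2, rfl⟩, he1, he2⟩ := h
  set j := (Nat.unpair n).1 with hj
  have hjn : j ≤ n := Nat.unpair_left_le n
  have hjt : j * t ≤ j ^ 2 := by nlinarith
  have hj2 : j ^ 2 ≤ n ^ 2 := Nat.pow_le_pow_left hjn 2
  have hn : r + 2 ≤ n := by
    by_contra hcon
    have h1 : n ≤ r + 1 := by omega
    have h2 : n ^ 3 ≤ (r + 1) ^ 3 := Nat.pow_le_pow_left h1 3
    have h3 : n ^ 2 ≤ (r + 1) ^ 2 := Nat.pow_le_pow_left h1 2
    nlinarith [sq_nonneg (r : ℤ)]
  -- members of other clusters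
  have hother : ∀ n' t', 1 ≤ t' → t' ≤ (Nat.unpair n').1 → n' ≠ n →
      n' ^ 3 + (Nat.unpair n').1 * t' ≤ n ^ 3 ∨
        n ^ 3 + n ^ 2 + r < n' ^ 3 + (Nat.unpair n').1 * t' := by
    intro n' t' h1 h2 h3
    have hjn' : (Nat.unpair n').1 ≤ n' := Nat.unpair_left_le n'
    rcases lt_or_gt_of_ne h3 with h4 | h4
    · left
      have h5 : (n' + 1) ^ 3 ≤ n ^ 3 := Nat.pow_le_pow_left h4 3
      have h6 : (Nat.unpair n').1 * t' ≤ n' * n' := Nat.mul_le_mul hjn' (h2.trans hjn')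
      nlinarith
    · right
      have h5 : (n + 1) ^ 3 ≤ n' ^ 3 := Nat.pow_le_pow_left h4 3
      have h6 : 0 ≤ (Nat.unpair n').1 * t' := Nat.zero_le _
      nlinarith
  by_cases hjr : j ≤ r
  · refine ⟨n ^ 3 + j ^ 2, by omega, ?_, ?_⟩
    · have h1 : j ^ 2 ≤ r ^ 2 := Nat.pow_le_pow_left hjr 2
      have h2 : 1 ≤ j * t := Nat.one_le_iff_ne_zero.2 (Nat.mul_ne_zero (by omega) (by omega))
      omega
    · rintro _ ⟨n', t', h1, h2, rfl⟩ ⟨h3, h4⟩
      by_cases h5 : n' = n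
      · subst h5
        rw [← hj] at h2 h3
        have : j * t' ≤ j ^ 2 := by nlinarith
        omega
      · rcases hother n' t' h1 h2 h5 with h6 | h6
        · omega
        · omega
  · refine ⟨n ^ 3 + j * t, by omega, by omega, ?_⟩
    rintro _ ⟨n', t', h1, h2, rfl⟩ ⟨h3, h4⟩
    by_cases h5 : n' = n
    · subst h5
      rw [← hj] at h2 h3 h4
      have h6 : j * t < j * t' := by omega
      have h7 : t < t' := lt_of_mul_lt_mul_left h6 (Nat.zero_le _)
      have h8 : j * (t + 1) ≤ j * t' := Nat.mul_le_mul_left _ h7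
      have h9 : j * (t + 1) = j * t + j := by ring
      omega
    · rcases hother n' t' h1 h2 h5 with h6 | h6
      · omega
      · omega

theorem Cl_unbounded (N : ℕ) : ∃ e ∈ Cl, N ≤ e := by
  have h1 : (Nat.unpair (Nat.pair 1 N)).1 = 1 := by rw [Nat.unpair_pair]
  refine ⟨(Nat.pair 1 N) ^ 3 + 1 * 1, ⟨Nat.pair 1 N, 1, le_rfl, by rw [h1], by rw [h1]⟩, ?_⟩
  have h2 : N ≤ Nat.pair 1 N := Nat.right_le_pair 1 N
  have h3 : Nat.pair 1 N ≤ (Nat.pair 1 N) ^ 3 := Nat.le_self_pow (by norm_num) _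
  omega

/-- the set `Vset (pw Cl) 1` contains no set `Vset (pw A) m` with a nice set `A` -/
theorem not_subset {A : Set ℕ} (hA : Nice A) {m : ℕ} (hm : 1 ≤ m) :
    ¬ Vset (pw A) m ⊆ Vset (pw Cl) 1 := by
  obtain ⟨R, hR⟩ := hA
  have hm0 : (0 : ℝ) < m := by exact_mod_cast hm
  obtain ⟨M, hM⟩ := exists_pow_lt_of_lt_one (show (0 : ℝ) < 1 / (4 * m) by positivity)
    (by norm_num : (1 / 2 : ℝ) < 1)
  let j := R + M + 1
  obtain ⟨n0, hn0⟩ := hR (j ^ 2 + j + 1)
  let n := Nat.pair j n0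
  have hnj : (Nat.unpair n).1 = j := by simp [n]
  have hn : n0 ≤ n ^ 3 := (Nat.right_le_pair j n0).trans (Nat.le_self_pow (by norm_num) _)
  -- some element of the cluster is followed by a gap of `A`
  obtain ⟨t, ht1, ht2, ht⟩ : ∃ t, 1 ≤ t ∧ t ≤ j ∧ ∀ e ∈ A, ¬ (n ^ 3 + j * t ≤ e ∧ e < n ^ 3 + j * t + M) := by
    by_contra hcon
    push Not at hcon
    have h1 : ∀ i : Fin (R + 1), ∃ e ∈ A, n ^ 3 + j * (i + 1) ≤ e ∧ e < n ^ 3 + j * (i + 1) + M := by
      intro i
      exact hcon (i + 1) (by omega) (by have := i.2; omega)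
    choose f hfA hf1 hf2 using h1
    have hlt : ∀ i i' : Fin (R + 1), (i : ℕ) < i' → f i < f i' := by
      intro i i' h
      have h3 : j * ((i : ℕ) + 1 + 1) ≤ j * (i' + 1) := Nat.mul_le_mul_left _ (by omega)
      have h4 : j * ((i : ℕ) + 1 + 1) = j * (i + 1) + j := by ring
      have := hf2 i
      have := hf1 i'
      omega
    refine pigeon (hn0 (n ^ 3) hn) f ?_ ?_
    · intro i i' hii
      rcases lt_trichotomy (i : ℕ) i' with h | h | h
      · have := hlt i i' h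
        omega
      · exact Fin.ext h
      · have := hlt i' i h
        omega
    · intro i
      refine ⟨hfA i, ?_, ?_⟩
      · have := hf1 i
        omega
      · have := hf2 i
        have h3 : j * ((i : ℕ) + 1) ≤ j * j := Nat.mul_le_mul_left _ (by have := i.2; omega)
        have h4 : j * j = j ^ 2 := by ring
        omega
  intro hsub
  set a := n ^ 3 + j * t with ha
  have ha1 : 1 ≤ a := by
    have : 1 ≤ j * t := Nat.one_le_iff_ne_zero.2 (Nat.mul_ne_zero (by omega) (by omega))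
    omega
  have h1 : ((2 : ℤ) ^ (a - 1)) ∈ Vset (pw A) m := by
    rw [mem_Vset]
    rintro _ ⟨e, he, rfl⟩
    refine (norm_pow_div).trans ?_
    split_ifs with h
    · positivity
    · have h2 : a + M ≤ e := by
        by_contra hcon
        exact ht e he ⟨by omega, by omega⟩
      refine le_trans ?_ hM.le
      exact pow_le_pow_of_le_one (by norm_num) (by norm_num) (by omega)
  have h2 := mem_Vset.1 (hsub h1) _ ⟨a, ⟨n, t, ht1, by rw [hnj]; exact ht2, by rw [hnj]⟩, rfl⟩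
  have h3 : ((2 : ℤ) ^ (a - 1)) • ((1 / 2 ^ a : ℝ) : T) = ((1 / 2 : ℝ) : T) := by
    rw [← AddCircle.coe_zsmul, zsmul_eq_mul]
    congr 1
    push_cast
    obtain ⟨d, hd⟩ := Nat.exists_eq_add_of_le ha1
    rw [hd, Nat.add_sub_cancel_left, pow_add]
    field_simp
  change ‖((2 : ℤ) ^ (a - 1)) • ((1 / 2 ^ a : ℝ) : T)‖ ≤ _ at h2
  rw [h3, norm_coe_eq (by rw [abs_of_pos] <;> norm_num), abs_of_pos (by norm_num)] at h2
  norm_num at h2

/-- **Negative answer to Q1.** For the D-sequence `b n = 2 ^ n` the topology `s_b` has the character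
group `H_b`, but there is a Hausdorff locally quasi-convex group topology `σ` on `ℤ` with the character
group `H_b` which is not coarser than `s_b` (in Mathlib `τ ≤ σ` says that `σ` is coarser than `τ`). -/
theorem result : DSeq (fun n => 2 ^ n) ∧
    HasCharGroup (sup fun n => 2 ^ n) (Hb fun n => 2 ^ n) ∧
    ∃ σ : TopologicalSpace ℤ, @IsTopologicalAddGroup ℤ σ _ ∧ @T2Space ℤ σ ∧
      LocallyQuasiConvex σ ∧ HasCharGroup σ (Hb fun n => 2 ^ n) ∧ ¬ (sup fun n => 2 ^ n) ≤ σ := by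
  refine ⟨dseq_two, charGroup_sup, unifTop (pw Cl), unifTop_group _, ?_, unifTop_lqc _, ?_, ?_⟩
  · refine @IsTopologicalAddGroup.t2Space_of_zero_sep ℤ (unifTop (pw Cl)) _ (unifTop_group _) ?_
    intro l hl
    obtain ⟨e, he, hle⟩ := Cl_unbounded (l.natAbs)
    have h1 : l • ((1 / 2 ^ e : ℝ) : T) ≠ 0 := by
      rw [← AddCircle.coe_zsmul, zsmul_eq_mul, Ne, AddCircle.coe_eq_zero_iff]
      rintro ⟨k, hk⟩
      have h2 : (k : ℝ) * 2 ^ e = l := by
        have h3 : (k : ℝ) = l * (1 / 2 ^ e) := by simpa using hk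
        rw [h3]
        field_simp
      have h3 : k * 2 ^ e = l := by exact_mod_cast h2
      have h4 : (2 : ℤ) ^ e ∣ l := ⟨k, by rw [← h3]; ring⟩
      have h5 := Int.natAbs_dvd_natAbs.2 h4
      have h6 : 2 ^ e ≤ l.natAbs := by
        have := Nat.le_of_dvd (Int.natAbs_pos.2 hl) h5
        simpa [Int.natAbs_pow] using this
      have h7 : e < 2 ^ e := Nat.lt_two_pow_self
      omega
    obtain ⟨m, hm⟩ := exists_nat_gt (1 / ‖l • ((1 / 2 ^ e : ℝ) : T)‖)
    have hpos : 0 < ‖l • ((1 / 2 ^ e : ℝ) : T)‖ := norm_pos_iff.2 h1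
    have hm0 : (0 : ℝ) < m := lt_trans (by positivity) hm
    have hm1 : 1 ≤ m := by
      have : 0 < m := by exact_mod_cast hm0
      omega
    have hV : Vset (pw Cl) m ∈ @nhds ℤ (unifTop (pw Cl)) 0 :=
      (unifTop_mem (pw Cl)).2 ⟨m, hm1, Set.Subset.refl _⟩
    refine ⟨Vset (pw Cl) m, hV, fun hcon => ?_⟩
    have h2 := (mem_Vset (S := pw Cl) (m := m)).1 hcon ((1 / 2 ^ e : ℝ) : T) ⟨e, he, rfl⟩
    rw [div_lt_iff₀ hpos] at hm
    rw [le_div_iff₀ (by positivity)] at h2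
    change ‖l • ((1 / 2 ^ e : ℝ) : T)‖ * _ ≤ _ at h2
    nlinarith
  · intro χ
    constructor
    · intro hχ
      have h1 : {l : ℤ | ‖l • χ 1‖ ≤ 1 / 4} ∈ @nhds ℤ (unifTop (pw Cl)) 0 := by
        have h2 := @Continuous.tendsto ℤ T (unifTop (pw Cl)) _ _ hχ 0
        rw [map_zero] at h2
        have h3 : {y : T | ‖y‖ < 1 / 4} ∈ 𝓝 (0 : T) :=
          (isOpen_lt continuous_norm continuous_const).mem_nhds (by norm_num)
        refine mem_of_superset (h2 h3) fun l hl => ?_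
        have h4 : ‖χ l‖ < 1 / 4 := hl
        rw [eq_chr χ] at h4
        exact h4.le
      obtain ⟨m, hm, hAm⟩ := (unifTop_mem _).1 h1
      obtain ⟨n, hn⟩ := dyadic_of_gappy gappy_Cl hm (x := χ 1) fun l hl => hAm hl
      exact mem_Hb_of hn
    · rintro ⟨k, n, hk⟩
      rw [eq_chr χ, hk]
      obtain ⟨e, he, hne⟩ := Cl_unbounded n
      have h1 : @Continuous ℤ T (unifTop (pw Cl)) _ (chr ((1 / 2 ^ e : ℝ) : T)) :=
        chr_continuous_of_mem (S := pw Cl) ⟨e, he, rfl⟩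
      exact chr_dyadic h1 hne
  · intro hle
    have h1 : Vset (pw Cl) 1 ∈ @nhds ℤ (unifTop (pw Cl)) 0 :=
      (unifTop_mem _).2 ⟨1, le_rfl, Set.Subset.refl _⟩
    have h2 := (nhds_mono hle) h1
    obtain ⟨A, hA, m, hm, hAm⟩ := nhds_sup h2
    exact not_subset hA hm hAm

end Pool.Agent.Results.MP_2b4c46_gt.SupremumNotMackey
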